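import Pool.Agent.Helper51.CM.SYS1
import Pool.Agent.W76.MO.Fix

/-!
# SYS: solution of the system of equations
(adapted from `Pool/Agent/W76/MO/Asm5.lean`)
-/

set_option autoImplicit false

namespace Pool.Agent.Helper34.CM.SYS51

open Finset
open scoped Classical
open Pool.Agent.W76.MO

lemma ge_of_rpow_ge' (τ : ℝ) (hτ : 0 < τ) (R : ℕ) : ∃ J : ℕ, ∀ i : ℕ, J ≤ i →
    (R : ℝ) ≤ (2 : ℝ) ^ (τ * i) := by
  have h1 : (1 : ℝ) < (2 : ℝ) ^ τ := Real.one_lt_rpow (by norm_num) hτ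
  have h2 := tendsto_pow_atTop_atTop_of_one_lt h1
  obtain ⟨J, hJ⟩ := Filter.eventually_atTop.1 (h2.eventually_ge_atTop (R : ℝ))
  refine ⟨J, fun i hi => ?_⟩
  rw [Real.rpow_mul (by norm_num), Real.rpow_natCast]
  exact hJ i hi

variable (E : Env)

lemma first_block (R j : ℕ) (hRj : R ≤ 2 ^ (j - 1)) (hu0 : ∀ p, 0 ≤ E.gu j p)
    (hgh : ∀ q : ℕ, E.gh j q ≠ 0 → E.H j q ∧ ¬ E.U j q ∧ 1 ≤ q * E.gh j q)
    (hUBne : (E.UB j).Nonempty) (hUBp : ∀ p ∈ E.UB j, p.Prime)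
    (htau1 : ∑ n ∈ A0m R j, taum E j n ≤ 8 * j + 8 * j / 4)
    (z z' : ℕ × ℕ → ℝ) (ε : ℝ) (hz : ∀ i, |z i| ≤ 1) (hz' : ∀ i, |z' i| ≤ 1)
    (hzz : ∀ i, |z i - z' i| ≤ ε) :
    |∑ n ∈ A0m R j, fzm E j z n - ∑ n ∈ A0m R j, fzm E j z' n -
      (8 * j) * (z (j - 1, 0) - z' (j - 1, 0))| ≤ ε * ((8 * j) / 4) := by
  have hε : 0 ≤ ε := (abs_nonneg _).trans (hzz (0, 0))
  have hA0 : ∀ n ∈ A0m R j, n ≠ 0 := fun n hn => by
    unfold A0m at hn
    have := (mem_Icc.1 (mem_filter.1 hn).1).1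
    omega
  have hsub : E.UB j ⊆ A0m R j := by
    intro p hp
    have hpp := hUBp p hp
    unfold Env.UB at hp
    rw [mem_filter, mem_Ioc] at hp
    unfold A0m
    rw [mem_filter, mem_Icc]
    refine ⟨⟨hpp.one_le, hp.1.2⟩, ?_⟩
    intro q hq hqp
    have : q = p := (Nat.prime_dvd_prime_iff_eq hq hpp).1 hqp
    subst this
    have : R ≤ q := by omega
    exact_mod_cast this
  have h := lip_sum (A0m R j) (E.UB j) hsub hUBne (fzm E j z) (fzm E j z') (taum E j) ε (8 * j)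
    (z (j - 1, 0) - z' (j - 1, 0))
    (fun n hn _ => (fzm_bound E j n z z' ε hu0 hz hz' hzz (hA0 n hn)).2)
    (fun p hp => prime_lipm E j p (hUBp p hp) z z' (j - 1, 0) _ ε
      (fun y => (E.gz_first j y (fun q hq => (hgh q hq).2.1) p hp).1)
      (E.gz_first j z (fun q hq => (hgh q hq).2.1) p hp).2)
  refine h.trans (mul_le_mul_of_nonneg_left ?_ hε)
  linarith

lemma cs_ne_zero (R i k n : ℕ) (hk : k < nc E.δ i) (hn : n ∈ csm E R i k) : n ≠ 0 := by
  unfold csm at hn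
  have h := (cell_loc E.δ E.hδ i k n hk (mem_filter.1 hn).1).1
  exact (lt_of_lt_of_le (Nat.succ_pos _) h).ne'

lemma cell_block (R j i k : ℕ) (hji : j ≤ i) (hj1 : 1 ≤ j) (hk : k < nc E.δ i)
    (hRj : R ≤ 2 ^ (j - 1)) (hu0 : ∀ p, 0 ≤ E.gu j p) (hh0 : ∀ q, 0 ≤ E.gh j q)
    (hgu : ∀ p, E.gu j p ≠ 0 → E.U j p)
    (hgh : ∀ q : ℕ, E.gh j q ≠ 0 → E.H j q ∧ ¬ E.U j q ∧ 1 ≤ q * E.gh j q)
    (hHC : k ∈ E.Bad i → E.cH / 2 * hh E.δ i / i ≤ ((E.Host j i k).card : ℝ))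
    (hJ4 : (R : ℝ) ≤ (2 : ℝ) ^ (E.τ * i))
    (htau : ∑ n ∈ csm E R i k, taum E j n ≤ E.w i + E.w i / 4)
    (z z' : ℕ × ℕ → ℝ) (ε : ℝ) (hz : ∀ i, |z i| ≤ 1) (hz' : ∀ i, |z' i| ≤ 1)
    (hzz : ∀ i, |z i - z' i| ≤ ε) :
    |∑ n ∈ csm E R i k, fzm E j z n - ∑ n ∈ csm E R i k, fzm E j z' n -
      E.w i * (z (i, k) - z' (i, k))| ≤ ε * (E.w i / 4) := by
  have hε : 0 ≤ ε := (abs_nonneg _).trans (hzz (0, 0))
  have hi1 : 1 ≤ i := hj1.trans hji
  have hir : (0 : ℝ) < i := by exact_mod_cast hi1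
  have hhpos : (0 : ℝ) < hh E.δ i := by exact_mod_cast hh_pos E.δ i
  have hRi : R ≤ 2 ^ i := by
    refine hRj.trans (Nat.pow_le_pow_right (by norm_num) (by omega))
  by_cases hkb : k ∈ E.Bad i
  · -- bad cell
    have hne : (E.Host j i k).Nonempty := by
      rw [← Finset.card_pos]
      have h3 := hHC hkb
      have h4 : 0 < E.cH / 2 * hh E.δ i / i := by
        have := E.hcH
        positivity
      exact_mod_cast h4.trans_le h3
    have hsub : E.Host j i k ⊆ csm E R i k := by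
      intro n hn
      unfold Env.Host at hn
      rw [mem_filter] at hn
      unfold csm
      rw [mem_filter]
      refine ⟨hn.1, ?_⟩
      intro p hp hpn
      exact hJ4.trans (hn.2.2.2.2.1 p hp hpn)
    have h := lip_sum (csm E R i k) (E.Host j i k) hsub hne (fzm E j z) (fzm E j z') (taum E j) ε
      (E.w i) (z (i, k) - z' (i, k))
      (fun n hn _ => (fzm_bound E j n z z' ε hu0 hz hz' hzz (cs_ne_zero E R i k n hk hn)).2)
      (fun n hn => host_lipm E j z z' ε hu0 hgu (fun q hq => (hgh q hq).1) hz hz' hzz i k n hji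
        hkb hn)
    refine h.trans (mul_le_mul_of_nonneg_left ?_ hε)
    linarith
  · -- good cell
    have hcard : 0 < (((cell E.δ i k).filter E.isU).card : ℝ) := by
      have h3 : ¬ ((((cell E.δ i k).filter E.isU).card : ℝ) < E.cU * hh E.δ i / (i : ℝ) ^ 4) := by
        intro h3
        apply hkb
        unfold Env.Bad
        rw [mem_filter, mem_range]
        exact ⟨hk, h3⟩
      rw [not_lt] at h3
      have := E.hcU
      exact lt_of_lt_of_le (by positivity) h3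
    have hne : ((cell E.δ i k).filter E.isU).Nonempty := by
      rw [← Finset.card_pos]
      exact_mod_cast hcard
    have hpr : ∀ p ∈ (cell E.δ i k).filter E.isU, p.Prime := fun p hp =>
      E.u_prime p (mem_filter.1 hp).2
    have hsub : (cell E.δ i k).filter E.isU ⊆ csm E R i k := by
      intro p hp
      have hpp := hpr p hp
      rw [mem_filter] at hp
      unfold csm
      rw [mem_filter]
      refine ⟨hp.1, ?_⟩
      intro q hq hqp
      have : q = p := (Nat.prime_dvd_prime_iff_eq hq hpp).1 hqp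
      subst this
      have h4 := (cell_loc E.δ E.hδ i k q hk hp.1).1
      have : R ≤ q := by omega
      exact_mod_cast this
    have h := lip_sum (csm E R i k) ((cell E.δ i k).filter E.isU) hsub hne (fzm E j z)
      (fzm E j z') (taum E j) ε (E.w i) (z (i, k) - z' (i, k))
      (fun n hn _ => (fzm_bound E j n z z' ε hu0 hz hz' hzz (cs_ne_zero E R i k n hk hn)).2)
      (fun p hp => by
        have hp' := mem_filter.1 hp
        exact prime_lipm E j p (hpr p hp) z z' (i, k) _ ε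
          (fun y => (E.gz_good j y (fun q hq => (hgh q hq).2.1) hh0 i k p hji hk hkb hp'.1
            hp'.2).1)
          (E.gz_good j z (fun q hq => (hgh q hq).2.1) hh0 i k p hji hk hkb hp'.1 hp'.2).2)
    refine h.trans (mul_le_mul_of_nonneg_left ?_ hε)
    linarith

/-- the system -/
noncomputable def FF (R j : ℕ) (z : ℕ × ℕ → ℝ) (x : ℕ × ℕ) : ℝ :=
  if x = (j - 1, 0) then ∑ n ∈ A0m R j, fzm E j z n
  else if j ≤ x.1 ∧ x.2 < nc E.δ x.1 then ∑ n ∈ csm E R x.1 x.2, fzm E j z n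
  else z x

/-- the weights -/
noncomputable def WW (j : ℕ) (x : ℕ × ℕ) : ℝ :=
  if x = (j - 1, 0) then 8 * j else if j ≤ x.1 ∧ x.2 < nc E.δ x.1 then E.w x.1 else 1

theorem t_SYS : T_SYSM := by
  intro E hGB hHC hFst hKey
  obtain ⟨R₀, hKey⟩ := hKey
  set R := max R₀ 2 with hR
  obtain ⟨J1, hKey⟩ := hKey R (le_max_left _ _)
  obtain ⟨J2, hJ2, hfirst⟩ := hFst R
  obtain ⟨J3, hHC⟩ := hHC
  obtain ⟨J4, hJ4⟩ := ge_of_rpow_ge' E.τ E.hτ R
  obtain ⟨J5, hJ5, hGB⟩ := hGB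
  set j := J1 + J2 + J3 + J4 + J5 + R + 10 with hj
  have hKj := hKey j (by omega)
  obtain ⟨hUBne, hUBp, htau1⟩ := hfirst j (by omega)
  obtain ⟨hUB, hu0, hh0, hgu, hgh, hguU, hghq, hsum1, hsum2⟩ := hGB j (by omega)
  have hHCj := hHC j (by omega)
  have hJ4j : ∀ i, j ≤ i → (R : ℝ) ≤ (2 : ℝ) ^ (E.τ * i) := fun i hi => hJ4 i (by omega)
  have hj10 : 10 ≤ j := by omega
  have hRj : R ≤ 2 ^ (j - 1) := by
    have h1 : R ≤ j - 1 := by omega
    exact h1.trans (Nat.lt_two_pow_self).le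
  clear_value j
  have hj1 : 1 ≤ j := by omega
  have hjr : (1 : ℝ) ≤ j := by exact_mod_cast hj1
  have hW : ∀ x, 0 < WW E j x := by
    intro x
    unfold WW
    split_ifs with h1 h2
    · positivity
    · exact E.w_pos _ (hj1.trans h2.1)
    · norm_num
  have hF0 : ∀ x, |FF E R j 0 x| ≤ WW E j x / 4 := by
    intro x
    unfold FF WW
    split_ifs with h1 h2
    · calc |∑ n ∈ A0m R j, fzm E j 0 n| ≤ ∑ n ∈ A0m R j, |fzm E j 0 n| := abs_sum_le_sum_abs _ _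
        _ = ∑ n ∈ A0m R j, 1 / (n : ℝ) := sum_congr rfl fun n hn => fzm_zero E j n hu0 (by
            unfold A0m at hn
            have := (mem_Icc.1 (mem_filter.1 hn).1).1
            omega)
        _ ≤ ∑ n ∈ Icc (1 : ℕ) (2 ^ j), 1 / (n : ℝ) := by
            apply sum_le_sum_of_subset_of_nonneg (filter_subset _ _)
            intro n _ _
            positivity
        _ ≤ 1 + j := Env.harm_le j
        _ ≤ 8 * j / 4 := by linarith
    · calc |∑ n ∈ csm E R x.1 x.2, fzm E j 0 n| ≤ ∑ n ∈ csm E R x.1 x.2, |fzm E j 0 n| :=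
            abs_sum_le_sum_abs _ _
        _ = ∑ n ∈ csm E R x.1 x.2, 1 / (n : ℝ) :=
            sum_congr rfl fun n hn => fzm_zero E j n hu0 (cs_ne_zero E R x.1 x.2 n h2.2 hn)
        _ ≤ E.w x.1 / 4 := hKj.inv_cell x.1 x.2 h2.1 h2.2
    · simp
  have hFl : ∀ (z z' : ℕ × ℕ → ℝ) (ε : ℝ), (∀ i, |z i| ≤ 1) → (∀ i, |z' i| ≤ 1) →
      (∀ i, |z i - z' i| ≤ ε) → ∀ x,
      |FF E R j z x - FF E R j z' x - WW E j x * (z x - z' x)| ≤ ε * (WW E j x / 4) := by
    intro z z' ε hz hz' hzz x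
    have hε : 0 ≤ ε := (abs_nonneg _).trans (hzz (0, 0))
    unfold FF WW
    split_ifs with h1 h2
    · subst h1
      exact first_block E R j hRj hu0 hgh hUBne hUBp htau1 z z' ε hz hz' hzz
    · exact cell_block E R j x.1 x.2 h2.1 hj1 h2.2 hRj hu0 hh0 hgu hgh
        (fun hb => hHCj x.1 h2.1 x.2 hb) (hJ4j x.1 h2.1) (hKj.tau_cell x.1 x.2 h2.1 h2.2)
        z z' ε hz hz' hzz
    · simp only [one_mul, sub_self, abs_zero]
      positivity
  obtain ⟨z, hz1, hz0⟩ := solve (FF E R j) (WW E j) hW hF0 hFl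
  refine ⟨R, j, z, hz1, le_max_right _ _, hj10, hKj, g_small E j hj10 hgu hguU hghq, ?_, ?_⟩
  · have h := hz0 (j - 1, 0)
    unfold FF at h
    rwa [if_pos rfl] at h
  · intro i k hi hk
    have h := hz0 (i, k)
    unfold FF at h
    have hne : ¬ ((i, k) : ℕ × ℕ) = (j - 1, 0) := by
      intro h1
      have : i = j - 1 := (Prod.ext_iff.1 h1).1
      omega
    rw [if_neg hne, if_pos ⟨hi, hk⟩] at h
    exact h

end Pool.Agent.Helper34.CM.SYS51
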