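import Pool.Agent.Helper34.CM.Stm
import Pool.Agent.W76.MO.Asm4

/-!
# SYS, part 1: perturbations of completely multiplicative products
(adapted from `Pool/Agent/W76/MO/Split.lean`, `Asm3.lean`)
-/

set_option autoImplicit false

namespace Pool.Agent.Helper34.CM.SYS51

open Finset
open scoped Classical
open Pool.Agent.W76.MO

/-- perturbation of a product, with multiplicities -/
lemma perturbm (n : ℕ) (hn : n ≠ 0) (x g g' G : ℕ → ℝ) (ε : ℝ) (hx : ∀ p, 0 ≤ x p)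
    (hε : 0 ≤ ε) (hg : ∀ p, |g p| ≤ G p) (hg' : ∀ p, |g' p| ≤ G p)
    (hgg : ∀ p, |g p - g' p| ≤ ε * G p) :
    (|cmp (fun p => g p - x p) n| ≤ cmp (fun p => x p + G p) n) ∧
    (|cmp (fun p => g p - x p) n - cmp (fun p => g' p - x p) n| ≤
      ε * der G (fun q => x q + G q) n) := by
  have hG : ∀ p, 0 ≤ G p := fun p => (abs_nonneg _).trans (hg p)
  have hb : ∀ p, |g p - x p| ≤ x p + G p := fun p => by
    have h1 := abs_sub (g p) (x p)
    rw [abs_of_nonneg (hx p)] at h1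
    linarith [hg p]
  have hb' : ∀ p, |g' p - x p| ≤ x p + G p := fun p => by
    have h1 := abs_sub (g' p) (x p)
    rw [abs_of_nonneg (hx p)] at h1
    linarith [hg' p]
  refine ind_primes (P := fun n => (|cmp (fun p => g p - x p) n| ≤ cmp (fun p => x p + G p) n) ∧
    (|cmp (fun p => g p - x p) n - cmp (fun p => g' p - x p) n| ≤
      ε * der G (fun q => x q + G q) n)) ?_ ?_ n hn
  · simp only [cmp_one, der_one]
    simp
  · intro a m ha hm ih
    obtain ⟨h1, h2⟩ := ih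
    rw [der_mul G (fun q => x q + G q) ha hm, cmp_mul _ ha.ne_zero hm, cmp_mul _ ha.ne_zero hm,
      cmp_mul _ ha.ne_zero hm, cmp_prime _ ha, cmp_prime _ ha, cmp_prime _ ha]
    set A := cmp (fun p => g p - x p) m with hA
    set A' := cmp (fun p => g' p - x p) m with hA'
    set B := cmp (fun p => x p + G p) m with hB
    set S := der G (fun q => x q + G q) m with hS
    have hB0 : 0 ≤ B := (abs_nonneg _).trans h1
    have hxa : 0 ≤ x a + G a := add_nonneg (hx a) (hG a)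
    refine ⟨?_, ?_⟩
    · rw [abs_mul]
      exact mul_le_mul (hb a) h1 (abs_nonneg _) hxa
    · have e : (g a - x a) * A - (g' a - x a) * A' = (g a - g' a) * A + (g' a - x a) * (A - A') := by
        ring
      rw [e]
      refine (abs_add_le _ _).trans ?_
      rw [abs_mul, abs_mul]
      have t1 : |g a - g' a| * |A| ≤ (ε * G a) * B :=
        mul_le_mul (hgg a) h1 (abs_nonneg _) (mul_nonneg hε (hG a))
      have t2 : |g' a - x a| * |A - A'| ≤ (x a + G a) * (ε * S) :=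
        mul_le_mul (hb' a) h2 (abs_nonneg _) hxa
      calc |g a - g' a| * |A| + |g' a - x a| * |A - A'|
          ≤ (ε * G a) * B + (x a + G a) * (ε * S) := add_le_add t1 t2
        _ = ε * (G a * B + (x a + G a) * S) := by ring

lemma prod_scalem (n : ℕ) (hn : n ≠ 0) (g : ℕ → ℝ) :
    cmp (fun p => 1 / (p : ℝ) + g p) n = (1 / (n : ℝ)) * cmp (fun p => 1 + p * g p) n := by
  refine ind_primes (P := fun n => cmp (fun p => 1 / (p : ℝ) + g p) n =
    (1 / (n : ℝ)) * cmp (fun p => 1 + p * g p) n) ?_ ?_ n hn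
  · simp only [cmp_one]
    simp
  · intro p m hp hm ih
    rw [cmp_mul _ hp.ne_zero hm, cmp_mul _ hp.ne_zero hm, cmp_prime _ hp, cmp_prime _ hp, ih]
    have hp0 : (p : ℝ) ≠ 0 := by exact_mod_cast hp.ne_zero
    have hm0 : (m : ℝ) ≠ 0 := by exact_mod_cast hm
    push_cast
    field_simp

lemma sum_scalem (n : ℕ) (hn : n ≠ 0) (g : ℕ → ℝ) :
    der g (fun q => 1 / (q : ℝ) + g q) n =
      (1 / (n : ℝ)) * der (fun p => p * g p) (fun p => 1 + p * g p) n := by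
  refine ind_primes (P := fun n => der g (fun q => 1 / (q : ℝ) + g q) n =
      (1 / (n : ℝ)) * der (fun p => p * g p) (fun p => 1 + p * g p) n) ?_ ?_ n hn
  · simp only [der_one]
    simp
  · intro p m hp hm ih
    rw [der_mul _ _ hp hm, der_mul _ _ hp hm, ih, prod_scalem m hm g]
    have hp0 : (p : ℝ) ≠ 0 := by exact_mod_cast hp.ne_zero
    have hm0 : (m : ℝ) ≠ 0 := by exact_mod_cast hm
    push_cast
    field_simp

variable (E : Env)

lemma gzm_eq (j : ℕ) (z : ℕ × ℕ → ℝ) : gzm E j z = E.gz j z := rfl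

lemma fzm_bound (j n : ℕ) (z z' : ℕ × ℕ → ℝ) (ε : ℝ) (hu : ∀ p, 0 ≤ E.gu j p)
    (hz : ∀ i, |z i| ≤ 1) (hz' : ∀ i, |z' i| ≤ 1)
    (hzz : ∀ i, |z i - z' i| ≤ ε) (hn : n ≠ 0) :
    |fzm E j z n| ≤ massm E j n ∧ |fzm E j z n - fzm E j z' n| ≤ ε * taum E j n := by
  have hε : 0 ≤ ε := (abs_nonneg _).trans (hzz (0, 0))
  have h := perturbm n hn (fun p => 1 / (p : ℝ)) (E.gz j z) (E.gz j z') (E.g j) ε
    (fun p => by positivity) hε
    (fun p => (E.gz_le j z 1 hz hu p).trans (le_of_eq (one_mul _)))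
    (fun p => (E.gz_le j z' 1 hz' hu p).trans (le_of_eq (one_mul _)))
    (fun p => by rw [Env.gz_sub]; exact E.gz_le j _ ε hzz hu p)
  refine ⟨?_, ?_⟩
  · refine h.1.trans (le_of_eq ?_)
    rw [prod_scalem n hn]
    rfl
  · refine h.2.trans (le_of_eq ?_)
    rw [sum_scalem n hn]
    rfl

lemma fzm_zero (j n : ℕ) (hu : ∀ p, 0 ≤ E.gu j p) (hn : n ≠ 0) :
    |fzm E j 0 n| = 1 / (n : ℝ) := by
  have h0 : ∀ p, gzm E j 0 p = 0 := fun p => by
    have := E.gz_le j 0 0 (fun i => by simp) hu p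
    rw [zero_mul] at this
    exact abs_eq_zero.1 (le_antisymm this (abs_nonneg _))
  unfold fzm
  refine ind_primes (P := fun n => |cmp (fun p => gzm E j 0 p - 1 / (p : ℝ)) n| = 1 / (n : ℝ))
    ?_ ?_ n hn
  · simp only [cmp_one]
    simp
  · intro p m hp hm ih
    have hp0 : (p : ℝ) ≠ 0 := by exact_mod_cast hp.ne_zero
    have hm0 : (m : ℝ) ≠ 0 := by exact_mod_cast hm
    rw [cmp_mul _ hp.ne_zero hm, cmp_prime _ hp, abs_mul, ih, h0, zero_sub, abs_neg,
      abs_of_nonneg (by positivity)]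
    push_cast
    field_simp

/-- at squarefree numbers `cmp` is the product over the primes -/
lemma cmp_sqf (G : ℕ → ℝ) {n : ℕ} (hn : Squarefree n) : cmp G n = ∏ p ∈ n.primeFactors, G p := by
  unfold cmp
  rw [← List.prod_toFinset G ((Nat.squarefree_iff_nodup_primeFactorsList hn.ne_zero).1 hn)]
  rfl

lemma der_sqf (u v : ℕ → ℝ) {n : ℕ} (hn : Squarefree n) :
    der u v n = ∑ p ∈ n.primeFactors, u p * ∏ q ∈ n.primeFactors.erase p, v q := by
  unfold der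
  rw [← List.sum_toFinset _ ((Nat.squarefree_iff_nodup_primeFactorsList hn.ne_zero).1 hn)]
  refine Finset.sum_congr rfl fun p hp => ?_
  have hp' : p ∈ n.primeFactors := hp
  have hsq : Squarefree (n / p) :=
    hn.squarefree_of_dvd (Nat.div_dvd_of_dvd (Nat.dvd_of_mem_primeFactors hp'))
  rw [cmp_sqf v hsq, primeFactors_div n p hn hp']

lemma fzm_sqf (j : ℕ) (z : ℕ × ℕ → ℝ) {n : ℕ} (hn : Squarefree n) :
    fzm E j z n = E.fz j z n := by
  unfold fzm
  rw [cmp_sqf _ hn]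
  rfl

lemma taum_sqf (j : ℕ) {n : ℕ} (hn : Squarefree n) : taum E j n = E.tau j n := by
  unfold taum
  rw [der_sqf _ _ hn]
  rfl

lemma host_lipm (j : ℕ) (z z' : ℕ × ℕ → ℝ) (ε : ℝ) (hu : ∀ p, 0 ≤ E.gu j p)
    (hU : ∀ p, E.gu j p ≠ 0 → E.U j p) (hH : ∀ q, E.gh j q ≠ 0 → E.H j q)
    (hz : ∀ i, |z i| ≤ 1) (hz' : ∀ i, |z' i| ≤ 1)
    (hzz : ∀ i, |z i - z' i| ≤ ε) (i k n : ℕ) (hi : j ≤ i)
    (hk : k ∈ E.Bad i) (hn : n ∈ E.Host j i k) :
    |fzm E j z n - fzm E j z' n - (z (i, k) - z' (i, k)) * (E.w i / ((E.Host j i k).card : ℝ))| ≤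
      ε * (taum E j n - E.w i / ((E.Host j i k).card : ℝ)) := by
  have hsq : Squarefree n := by
    unfold Env.Host at hn
    rw [mem_filter] at hn
    exact hn.2.2.2.1
  rw [fzm_sqf E j z hsq, fzm_sqf E j z' hsq, taum_sqf E j hsq]
  exact E.host_lip j z z' ε hu hU hH hz hz' hzz i k n hi hk hn

lemma prime_lipm (j p : ℕ) (hp : p.Prime) (z z' : ℕ × ℕ → ℝ) (x : ℕ × ℕ) (W ε : ℝ)
    (hz : ∀ y : ℕ × ℕ → ℝ, E.gz j y p = y x * W) (hg : E.g j p = W) :
    |fzm E j z p - fzm E j z' p - (z x - z' x) * W| ≤ ε * (taum E j p - W) := by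
  have hsq := hp.squarefree
  rw [fzm_sqf E j z hsq, fzm_sqf E j z' hsq, taum_sqf E j hsq]
  exact E.prime_lip j p hp z z' x W ε hz hg

/-- the perturbations are small -/
lemma g_small (j : ℕ) (hj10 : 10 ≤ j)
    (hgu : ∀ p, E.gu j p ≠ 0 → E.U j p)
    (hguU : ∀ p, E.U j p → j - 1 ≤ Env.sc p ∧
      1 + 2 * (p * E.gu j p) ≤ (2 : ℝ) ^ (E.δ / 2 * Env.sc p) / (Env.sc p : ℝ) ^ 35)
    (hghq : ∀ q, E.gh j q ≠ 0 → (2 : ℝ) ^ ((j : ℝ) / 2) ≤ q ∧
      1 + 2 * (q * E.gh j q) ≤ (q : ℝ) ^ (9 * E.δ)) :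
    ∀ p : ℕ, p.Prime → E.g j p ≤ 1 / 4 := by
  intro p hp
  have hp1 : (1 : ℝ) ≤ p := by exact_mod_cast hp.one_le
  have hp0 : (0 : ℝ) < p := by linarith
  have hδ1 : E.δ ≤ 1 / 100000 := by
    have := E.hδ'
    have := E.hτ'
    linarith
  have hδ0 := E.hδ
  -- if `p ≥ 16` and `2 p x ≤ p^(1/2)` then `x ≤ 1/8`
  have hsmall : ∀ x : ℝ, 16 ≤ (p : ℝ) → 2 * (p * x) ≤ (p : ℝ) ^ (1 / 2 : ℝ) → x ≤ 1 / 8 := by
    intro x h16 hx
    have h1 : (p : ℝ) ^ (1 / 2 : ℝ) * (p : ℝ) ^ (1 / 2 : ℝ) = p := by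
      rw [← Real.rpow_add hp0]
      norm_num
    have h2 : (4 : ℝ) ≤ (p : ℝ) ^ (1 / 2 : ℝ) := by
      have h3 : (16 : ℝ) ^ (1 / 2 : ℝ) ≤ (p : ℝ) ^ (1 / 2 : ℝ) :=
        Real.rpow_le_rpow (by norm_num) h16 (by norm_num)
      have h4 : (16 : ℝ) ^ (1 / 2 : ℝ) = 4 := by
        rw [show (16 : ℝ) = 4 ^ (2 : ℝ) by norm_num, ← Real.rpow_mul (by norm_num)]
        norm_num
      linarith
    by_contra hcon
    push Not at hcon
    set y := (p : ℝ) ^ (1 / 2 : ℝ) with hy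
    have h5 : 2 * (y * y * x) ≤ y := by rw [h1]; exact hx
    have h6 : 0 < y := by linarith
    have h7 : 2 * (y * x) ≤ 1 := by
      by_contra h8
      push Not at h8
      nlinarith
    nlinarith
  have hu8 : E.gu j p ≤ 1 / 8 := by
    by_cases h : E.gu j p = 0
    · rw [h]; norm_num
    have hU := hgu p h
    have hlt := hU.2
    obtain ⟨hsc, hb⟩ := hguU p hU
    have h16 : 16 ≤ p := by
      have h1 : 2 ^ 4 ≤ 2 ^ (j - 1) := Nat.pow_le_pow_right (by norm_num) (by omega)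
      omega
    apply hsmall _ (by exact_mod_cast h16)
    have hsc1 : 1 ≤ Env.sc p := by omega
    have hscr : (1 : ℝ) ≤ Env.sc p := by exact_mod_cast hsc1
    have h2 : (2 : ℝ) ^ (E.δ / 2 * Env.sc p) / (Env.sc p : ℝ) ^ 35 ≤
        (2 : ℝ) ^ (E.δ / 2 * Env.sc p) := by
      apply div_le_self (by positivity)
      exact one_le_pow₀ hscr
    have h3 : (2 : ℝ) ^ (E.δ / 2 * Env.sc p) ≤ (2 : ℝ) ^ (1 / 2 * (Env.sc p : ℝ)) := by
      apply Real.rpow_le_rpow_of_exponent_le (by norm_num)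
      have : (0 : ℝ) ≤ Env.sc p := by linarith
      nlinarith
    have h4 : (2 : ℝ) ^ (1 / 2 * (Env.sc p : ℝ)) ≤ (p : ℝ) ^ (1 / 2 : ℝ) := by
      rw [mul_comm, Real.rpow_mul (by norm_num), Real.rpow_natCast]
      apply Real.rpow_le_rpow (by positivity) _ (by norm_num)
      have h5 : 2 ^ Env.sc p ≤ p - 1 := Nat.pow_log_le_self 2 (by omega)
      have h6 : 2 ^ Env.sc p ≤ p := h5.trans (Nat.sub_le _ _)
      exact_mod_cast h6
    linarith
  have hh8 : E.gh j p ≤ 1 / 8 := by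
    by_cases h : E.gh j p = 0
    · rw [h]; norm_num
    obtain ⟨h1, h2⟩ := hghq p h
    have h16 : (16 : ℝ) ≤ p := by
      refine le_trans ?_ h1
      have h3 : (2 : ℝ) ^ (4 : ℝ) ≤ (2 : ℝ) ^ ((j : ℝ) / 2) := by
        apply Real.rpow_le_rpow_of_exponent_le (by norm_num)
        have : 8 ≤ j := by omega
        have : (8 : ℝ) ≤ j := by exact_mod_cast this
        linarith
      calc (16 : ℝ) = (2 : ℝ) ^ (4 : ℝ) := by norm_num
        _ ≤ _ := h3
    apply hsmall _ h16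
    have h3 : (p : ℝ) ^ (9 * E.δ) ≤ (p : ℝ) ^ (1 / 2 : ℝ) := by
      apply Real.rpow_le_rpow_of_exponent_le hp1
      linarith
    linarith
  unfold Env.g
  linarith

end Pool.Agent.Helper34.CM.SYS51
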